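import Pool.Agent.N658.TP.Stm2
import Pool.Agent.TH235.PQ.Lab
import Pool.Agent.TH235.PQ.Reg

/-!
Project TP (helper658), part NetAdj (helper756): the adjoint of the truncated expansion maps tensor
network vectors to tensor network vectors. The proof of `net` is that of `Pool.Agent.TH235.PQ.net`.
-/

set_option autoImplicit false
set_option linter.unusedSectionVars false

open scoped BigOperators Matrix
open Finset Pool.Agent.TH235.PP Pool.Agent.TH235.PQ

namespace Pool.Agent.N756.TP.NetAdj

section net

variable {d R' L : ℕ} [NeZero L]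

/-- A sum over families of labels with a local constraint maps tensor network vectors to tensor
network vectors. -/
theorem net {Λ : Type} [Fintype Λ] [Nonempty Λ] {K : Type*} [Fintype K]
    (A0 : Site L → Fin d → K → K → K → K → ℂ)
    (Op : (Site L → Λ) → Site L → Matrix (Fin d) (Fin d) ℂ)
    (hOp : ∀ (v : Site L) (g g' : Site L → Λ),
      (∀ (u : Site L) (x : Fin (R' + 1) × Fin (R' + 1)), sh u x = v → g u = g' u) →
      Op g v = Op g' v)
    (w : Λ → ℂ) (X : Site L → (Site L → Λ) → Prop)
    (hX : ∀ (v : Site L) (g g' : Site L → Λ),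
      (∀ (u : Site L) (x : Fin (2 * R' + 1) × Fin (2 * R' + 1)), sh u x = v → g u = g' u) →
      (X (cen R' v) g ↔ X (cen R' v) g')) :
    ∃ A : Site L → Fin d → (K × (Fin (2 * R' + 1) × Fin (2 * R' + 1) → Λ)) →
      (K × (Fin (2 * R' + 1) × Fin (2 * R' + 1) → Λ)) →
      (K × (Fin (2 * R' + 1) × Fin (2 * R' + 1) → Λ)) →
      (K × (Fin (2 * R' + 1) × Fin (2 * R' + 1) → Λ)) → ℂ,
      (∑ g : Site L → Λ, (open Classical in if ∀ u, X u g then ∏ u, w (g u) else 0) •
        tp (Op g)).mulVec (contract A0) = contract A := by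
  classical
  set f : Site L → Fin d → (Fin (2 * R' + 1) × Fin (2 * R' + 1) → Λ) →
      K → K → K → K → ℂ := fun v a' W l r' dn up =>
    (if X (cen R' v) (ext v W) then w (ext v W (cen R' v)) else 0) *
      ∑ a, Op (ext v W) v a' a * A0 v a l r' dn up with hf
  refine ⟨_, Eq.trans ?_ (peps_core f).symm⟩
  funext s
  have hfw : ∀ (g : Site L → Λ) (v : Site L) (a' : Fin d) (l r' dn up : K),
      f v a' (win g v) l r' dn up =
        (if X (cen R' v) g then w (g (cen R' v)) else 0) *
          ∑ a, Op g v a' a * A0 v a l r' dn up := by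
    intro g v a' l r' dn up
    simp only [hf]
    have h1 : ∀ (u : Site L) (x : Fin (2 * R' + 1) × Fin (2 * R' + 1)), sh u x = v →
        ext v (win (R' := 2 * R') g v) u = g u := fun u x hx => ext_win g v u ⟨x, hx⟩
    rw [h1 _ _ (sh_cen v)]
    have h2 : Op (ext v (win (R' := 2 * R') g v)) v = Op g v := by
      apply hOp
      intro u x hx
      rw [h1 u _ (sh_big u v x hx)]
    rw [h2]
    have h3 : X (cen R' v) (ext v (win (R' := 2 * R') g v)) ↔ X (cen R' v) g := hX v _ _ h1
    by_cases hx : X (cen R' v) g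
    · rw [if_pos hx, if_pos (h3.2 hx)]
    · rw [if_neg hx, if_neg fun hh => hx (h3.1 hh)]
  have hprod : ∀ g : Site L → Λ, (if ∀ u, X u g then ∏ u, w (g u) else 0) =
      ∏ v, (if X (cen R' v) g then w (g (cen R' v)) else 0) := by
    intro g
    have e1 : ∏ v : Site L, (if X (cen R' v) g then w (g (cen R' v)) else 0) =
        ∏ u : Site L, (if X u g then w (g u) else 0) :=
      (Equiv.subRight (((R' : ℕ) : ZMod L), ((R' : ℕ) : ZMod L))).prod_comp
        (fun u => if X u g then w (g u) else 0)
    rw [e1]
    split_ifs with hc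
    · exact Finset.prod_congr rfl fun u _ => (if_pos (hc u)).symm
    · push Not at hc
      obtain ⟨u, hu⟩ := hc
      symm
      apply Finset.prod_eq_zero (mem_univ u)
      rw [if_neg hu]
  unfold Matrix.mulVec dotProduct
  simp only [Matrix.sum_apply, Matrix.smul_apply, smul_eq_mul, Finset.sum_mul]
  rw [Finset.sum_comm]
  refine Finset.sum_congr rfl fun g _ => ?_
  unfold contract
  simp only [Finset.mul_sum]
  rw [Finset.sum_comm]
  refine Finset.sum_congr rfl fun h0 _ => ?_
  rw [Finset.sum_comm]
  refine Finset.sum_congr rfl fun v0 _ => ?_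
  simp only [hfw]
  rw [Finset.prod_mul_distrib, ← hprod, Finset.prod_univ_sum, Fintype.piFinset_univ,
    Finset.mul_sum]
  refine Finset.sum_congr rfl fun x _ => ?_
  unfold tp
  rw [Finset.prod_mul_distrib]
  ring

theorem tp_conj (a : Site L → Matrix (Fin d) (Fin d) ℂ) :
    (tp a)ᴴ = tp fun v => (a v)ᴴ := by
  ext x y
  rw [Matrix.conjTranspose_apply]
  unfold tp
  rw [star_prod]
  rfl

end net

/-- Task NetAdj. -/
theorem netAdj : Pool.Agent.N658.TP.StmNetAdj := by
  classical
  intro d R' L _ hL K _ A0 c h N e q r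
  have h0 : (KA (adjR R' e) q (fun b => c • term h (e b)) r)ᴴ =
      ∑ g : Site L → LabT d (R' + 1) q r,
        (open Classical in if ∀ u, XX e u g then ∏ u, star (wgtT c h (g u)) else 0) •
          tp (fun v => (OvG e (fun u => (g u).1) v)ᴴ) := by
    rw [KA_eq reg hL c h e q r, Matrix.conjTranspose_sum]
    refine Finset.sum_congr rfl fun g _ => ?_
    rw [Matrix.conjTranspose_smul, tp_conj]
    congr 1
    split_ifs with hc
    · rw [star_prod]
    · exact star_zero _
  rw [h0]
  refine net (R' := R') A0 (fun (g : Site L → LabT d (R' + 1) q r) v =>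
    (OvG e (fun u => (g u).1) v)ᴴ) ?_ (fun φ => star (wgtT c h φ)) (fun u g => XX e u g) ?_
  · intro v g g' hgg
    rw [OvG_congr e (fun u => (g u).1) (fun u => (g' u).1) v]
    intro u x hx
    rw [hgg u x hx]
  · intro v g g' hgg
    have hc : g (cen R' v) = g' (cen R' v) := hgg _ _ (sh_cen v)
    have h1 : ∀ n, pat e g n (e.symm (cen R' v)) = pat e g' n (e.symm (cen R' v)) := by
      intro n
      unfold pat
      rw [e.apply_symm_apply, hc]
    have h2 : ∀ n b', adjR R' e (e.symm (cen R' v)) b' → pat e g n b' = pat e g' n b' := by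
      intro n b' hb'
      obtain ⟨-, x, x', hx⟩ := hb'
      rw [e.apply_symm_apply] at hx
      unfold pat
      rw [hgg (e b') (⟨R' + x'.1.1 - x.1.1, by omega⟩, ⟨R' + x'.2.1 - x.2.1, by omega⟩) ?_]
      unfold sh cen at hx
      rw [Prod.mk.injEq] at hx
      unfold sh
      simp only []
      have hx1 := hx.1
      have hx2 := hx.2
      ext
      · simp only []
        rw [Nat.cast_sub (by omega), Nat.cast_add]
        linear_combination -hx1
      · simp only []
        rw [Nat.cast_sub (by omega), Nat.cast_add]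
        linear_combination -hx2
    unfold XX
    rw [adm_congr (adjR R' e) q _ _ _ h1 h2, actn_congr (adjR R' e) q _ _ _ h1 h2]

end Pool.Agent.N756.TP.NetAdj
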